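import Mathlib

/-! A locally uniformly convex norm on `ℓ¹` and a closed hyperplane without nearest points. -/

set_option autoImplicit false

open Filter Topology

namespace Pool.Agent.Q24.Luc

/-- real `ℓ¹` -/
abbrev L1 := lp (fun _ : ℕ => ℝ) 1
/-- real `ℓ²` -/
abbrev L2 := lp (fun _ : ℕ => ℝ) 2
/-- the `ℓ²`-sum -/
abbrev V := WithLp 2 (L1 × L2)

/-- the diagonal `{(x, x) : x ∈ ℓ¹}` in the `ℓ²`-sum of `ℓ¹` and `ℓ²` -/
def E : Submodule ℝ V where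
  carrier := {v | ∀ i, (v.fst : ∀ _ : ℕ, ℝ) i = (v.snd : ∀ _ : ℕ, ℝ) i}
  zero_mem' := by intro i; simp
  add_mem' := by
    intro a b ha hb i
    have h1 := ha i
    have h2 := hb i
    simp only [WithLp.add_fst, WithLp.add_snd, lp.coeFn_add, Pi.add_apply]
    rw [h1, h2]
  smul_mem' := by
    intro c a ha i
    have h1 := ha i
    simp only [WithLp.smul_fst, WithLp.smul_snd, lp.coeFn_smul, Pi.smul_apply]
    rw [h1]

theorem coord1_cont (i : ℕ) : Continuous (fun x : L1 => (x : ∀ _ : ℕ, ℝ) i) := by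
  refine (LipschitzWith.of_dist_le_mul (K := 1) fun x y => ?_).continuous
  rw [dist_eq_norm, dist_eq_norm, NNReal.coe_one, one_mul]
  exact lp.norm_apply_le_norm (by norm_num) (x - y) i

theorem coord2_cont (i : ℕ) : Continuous (fun x : L2 => (x : ∀ _ : ℕ, ℝ) i) := by
  refine (LipschitzWith.of_dist_le_mul (K := 1) fun x y => ?_).continuous
  rw [dist_eq_norm, dist_eq_norm, NNReal.coe_one, one_mul]
  exact lp.norm_apply_le_norm (by norm_num) (x - y) i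

theorem E_closed : IsClosed (E : Set V) := by
  have : (E : Set V) = ⋂ i : ℕ, {v : V | (v.fst : ∀ _ : ℕ, ℝ) i = (v.snd : ∀ _ : ℕ, ℝ) i} := by
    ext v
    simp only [Set.mem_iInter, Set.mem_ofPred_eq]
    rfl
  rw [this]
  refine isClosed_iInter fun i => isClosed_eq ?_ ?_
  · exact (coord1_cont i).comp (WithLp.fstL 2 ℝ L1 L2).continuous
  · exact (coord2_cont i).comp (WithLp.sndL 2 ℝ L1 L2).continuous

instance : CompleteSpace E := E_closed.completeSpace_coe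

theorem norm_sq (v : E) : ‖v‖ ^ 2 = ‖(v : V).fst‖ ^ 2 + ‖(v : V).snd‖ ^ 2 :=
  WithLp.prod_norm_sq_eq_of_L2 (v : V)

theorem norm1 (x : L1) : ‖x‖ = ∑' i, |(x : ∀ _ : ℕ, ℝ) i| := by
  rw [lp.norm_eq_tsum_rpow (by norm_num)]
  simp

theorem summ1 (x : L1) : Summable (fun i => |(x : ∀ _ : ℕ, ℝ) i|) := by
  have := (lp.memℓp x).summable (by norm_num)
  simpa using this

/-- key inequality -/
theorem key (x y : E) (hx : ‖x‖ = 1) (hy : ‖y‖ = 1) :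
    (‖(y : V).fst‖ - ‖(x : V).fst‖) ^ 2 + ‖(x : V).snd - (y : V).snd‖ ^ 2 ≤ 4 - ‖x + y‖ ^ 2 := by
  have h1 := norm_sq x
  have h2 := norm_sq y
  have h3 := norm_sq (x + y)
  rw [hx] at h1
  rw [hy] at h2
  have h4 : ‖((x + y : E) : V).fst‖ ≤ ‖(x : V).fst‖ + ‖(y : V).fst‖ := norm_add_le _ _
  have h5 := parallelogram_law_with_norm ℝ (x : V).snd (y : V).snd
  have h6 : ((x + y : E) : V).snd = (x : V).snd + (y : V).snd := rfl
  rw [h6] at h3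
  have h7 : ‖((x + y : E) : V).fst‖ ^ 2 ≤ (‖(x : V).fst‖ + ‖(y : V).fst‖) ^ 2 :=
    pow_le_pow_left₀ (norm_nonneg _) h4 2
  nlinarith

/-- the `ℓ¹`-distance is controlled -/
theorem dist1 (x y : L1) (z : L2) (hz : ∀ i, (z : ∀ _ : ℕ, ℝ) i = (x : ∀ _ : ℕ, ℝ) i - (y : ∀ _ : ℕ, ℝ) i)
    (N : ℕ) (η : ℝ) (hη : ∑' i, |(x : ∀ _ : ℕ, ℝ) (i + N)| ≤ η) :
    ‖x - y‖ ≤ 2 * η + 2 * N * ‖z‖ + |‖y‖ - ‖x‖| := by
  have hb : ∀ i, |(x : ∀ _ : ℕ, ℝ) i - (y : ∀ _ : ℕ, ℝ) i| ≤ ‖z‖ := by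
    intro i
    have := lp.norm_apply_le_norm (by norm_num : (2 : ENNReal) ≠ 0) z i
    rw [hz i] at this
    exact this
  have hsx := summ1 x
  have hsy := summ1 y
  have hsd := summ1 (x - y)
  have hsd' : Summable (fun i => |(x : ∀ _ : ℕ, ℝ) i - (y : ∀ _ : ℕ, ℝ) i|) := hsd
  have e0 : ‖x - y‖ = ∑' i, |(x : ∀ _ : ℕ, ℝ) i - (y : ∀ _ : ℕ, ℝ) i| := norm1 (x - y)
  have e1 := hsd'.sum_add_tsum_nat_add N
  have e2 := hsx.sum_add_tsum_nat_add N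
  have e3 := hsy.sum_add_tsum_nat_add N
  have t1 : ∑ i ∈ Finset.range N, |(x : ∀ _ : ℕ, ℝ) i - (y : ∀ _ : ℕ, ℝ) i| ≤ N * ‖z‖ := by
    calc _ ≤ ∑ i ∈ Finset.range N, ‖z‖ := Finset.sum_le_sum fun i _ => hb i
      _ = N * ‖z‖ := by simp
  have t2 : ∑ i ∈ Finset.range N, |(x : ∀ _ : ℕ, ℝ) i| ≤
      ∑ i ∈ Finset.range N, |(y : ∀ _ : ℕ, ℝ) i| +
      ∑ i ∈ Finset.range N, |(x : ∀ _ : ℕ, ℝ) i - (y : ∀ _ : ℕ, ℝ) i| := by
    rw [← Finset.sum_add_distrib]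
    refine Finset.sum_le_sum fun i _ => ?_
    have := abs_add_le ((y : ∀ _ : ℕ, ℝ) i) ((x : ∀ _ : ℕ, ℝ) i - (y : ∀ _ : ℕ, ℝ) i)
    simpa using this
  have sx' := (summable_nat_add_iff N).2 hsx
  have sy' := (summable_nat_add_iff N).2 hsy
  have sd' := (summable_nat_add_iff N).2 hsd'
  have t3 : ∑' i, |(x : ∀ _ : ℕ, ℝ) (i + N) - (y : ∀ _ : ℕ, ℝ) (i + N)| ≤
      ∑' i, |(x : ∀ _ : ℕ, ℝ) (i + N)| + ∑' i, |(y : ∀ _ : ℕ, ℝ) (i + N)| := by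
    rw [← sx'.tsum_add sy']
    refine Summable.tsum_le_tsum (fun i => ?_) sd' (sx'.add sy')
    exact abs_sub _ _
  have n1 := norm1 x
  have n2 := norm1 y
  have hle := le_abs_self (‖y‖ - ‖x‖)
  rw [e0, ← e1]
  rw [n1, n2, ← e2, ← e3] at hle ⊢
  nlinarith

theorem luc (x : E) (hx : ‖x‖ = 1) (ε : ℝ) (hε : 0 < ε) :
    ∃ δ : ℝ, 0 < δ ∧ ∀ y : E, ‖y‖ = 1 → ε ≤ ‖x - y‖ → ‖x + y‖ ≤ 2 - 2 * δ := by
  have htail := tendsto_sum_nat_add (fun i => |((x : V).fst : ∀ _ : ℕ, ℝ) i|)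
  obtain ⟨N, hN⟩ := ((htail.eventually (gt_mem_nhds (by positivity : (0:ℝ) < ε / 8))).exists)
  set τ : ℝ := ε / (8 * (N + 1)) with hτ
  have hNpos : (0 : ℝ) < N + 1 := by positivity
  have hτpos : 0 < τ := by positivity
  refine ⟨τ ^ 2 / 8, by positivity, fun y hy hxy => ?_⟩
  by_contra hcon
  push Not at hcon
  have hk := key x y hx hy
  have hn2 : ‖x + y‖ ≤ 2 := by
    calc ‖x + y‖ ≤ ‖x‖ + ‖y‖ := norm_add_le _ _
      _ = 2 := by rw [hx, hy]; norm_num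
  -- bound on the defect
  have hdef : 4 - ‖x + y‖ ^ 2 < τ ^ 2 := by
    by_cases h : 0 ≤ 2 - 2 * (τ ^ 2 / 8)
    · nlinarith [norm_nonneg (x + y)]
    · push Not at h
      nlinarith [norm_nonneg (x + y)]
  set z : L2 := (x : V).snd - (y : V).snd with hz
  have hz2 : ‖z‖ ^ 2 < τ ^ 2 := by nlinarith [sq_nonneg (‖(y : V).fst‖ - ‖(x : V).fst‖)]
  have hz1 : ‖z‖ < τ := lt_of_pow_lt_pow_left₀ 2 hτpos.le hz2
  have hd2 : (‖(y : V).fst‖ - ‖(x : V).fst‖) ^ 2 < τ ^ 2 := by nlinarith [sq_nonneg ‖z‖]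
  have hd1 : |‖(y : V).fst‖ - ‖(x : V).fst‖| < τ := by
    rw [← abs_of_pos hτpos]
    exact sq_lt_sq.1 hd2
  have hdist := dist1 (x : V).fst (y : V).fst z (by
    intro i
    have h1 := x.2 i
    have h2 := y.2 i
    rw [h1, h2]
    rfl) N (ε / 8) hN.le
  have hsq := norm_sq (x - y)
  have e1 : ((x - y : E) : V).fst = (x : V).fst - (y : V).fst := rfl
  have e2 : ((x - y : E) : V).snd = z := rfl
  rw [e1, e2] at hsq
  have hsum : ‖x - y‖ ≤ ‖(x : V).fst - (y : V).fst‖ + ‖z‖ := by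
    refine le_of_sq_le_sq ?_ (by positivity)
    nlinarith [norm_nonneg ((x : V).fst - (y : V).fst), norm_nonneg z,
      mul_nonneg (norm_nonneg ((x : V).fst - (y : V).fst)) (norm_nonneg z)]
  have hτe : τ * (8 * (N + 1)) = ε := by rw [hτ]; field_simp
  have hNτ : 2 * N * ‖z‖ ≤ 2 * N * τ := by
    apply mul_le_mul_of_nonneg_left hz1.le; positivity
  nlinarith

end Pool.Agent.Q24.Luc
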