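import Pool.Agent.Q24.Luc.Basic

set_option autoImplicit false

open Filter Topology

namespace Pool.Agent.Q24.Luc

theorem summ1' (x : L1) : Summable (fun i => (x : ∀ _ : ℕ, ℝ) i) := (summ1 x).of_abs

/-- the sum of the coordinates -/
noncomputable def f : E →ₗ[ℝ] ℝ where
  toFun v := ∑' i, ((v : V).fst : ∀ _ : ℕ, ℝ) i
  map_add' := by
    intro a b
    exact (summ1' (a : V).fst).tsum_add (summ1' (b : V).fst)
  map_smul' := by
    intro c a
    exact tsum_mul_left

theorem f_le1 (v : E) : |f v| ≤ ‖(v : V).fst‖ := by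
  rw [norm1]
  exact norm_tsum_le_tsum_norm (f := fun i => ((v : V).fst : ∀ _ : ℕ, ℝ) i) (by simpa using summ1 (v : V).fst)

theorem fst_eq_zero (v : E) (h : (v : V).snd = 0) : v = 0 := by
  have h1 : (v : V).fst = 0 := by
    ext i
    have := v.2 i
    rw [h] at this
    simpa using this
  apply Subtype.ext
  exact WithLp.ofLp_injective 2 (Prod.ext h1 h)

theorem f_lt (v : E) (hv : v ≠ 0) : |f v| < ‖v‖ := by
  have h1 := norm_sq v
  have h2 := f_le1 v
  have h3 : 0 < ‖(v : V).snd‖ := by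
    rw [norm_pos_iff]
    intro h
    exact hv (fst_eq_zero v h)
  refine lt_of_pow_lt_pow_left₀ 2 (norm_nonneg v) ?_
  nlinarith [abs_nonneg (f v), norm_nonneg (v : V).fst]

theorem f_le (v : E) : |f v| ≤ ‖v‖ := by
  by_cases h : v = 0
  · simp [h]
  · exact (f_lt v h).le

theorem f_cont : Continuous f := by
  refine (LipschitzWith.of_dist_le_mul (K := 1) fun x y => ?_).continuous
  rw [dist_eq_norm, dist_eq_norm, NNReal.coe_one, one_mul, ← map_sub]
  exact f_le (x - y)

/-- `n` coordinates equal to `1 / n` -/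
noncomputable def u1 (n : ℕ) : L1 := ∑ i ∈ Finset.range n, lp.single 1 i ((n : ℝ)⁻¹)
/-- the same in `ℓ²` -/
noncomputable def u2 (n : ℕ) : L2 := ∑ i ∈ Finset.range n, lp.single 2 i ((n : ℝ)⁻¹)

theorem u1_apply (n i : ℕ) : (u1 n : ∀ _ : ℕ, ℝ) i = if i < n then (n : ℝ)⁻¹ else 0 := by
  rw [u1, lp.coeFn_sum, Finset.sum_apply]
  simp only [lp.single_apply, Finset.sum_pi_single, Finset.mem_range]

theorem u2_apply (n i : ℕ) : (u2 n : ∀ _ : ℕ, ℝ) i = if i < n then (n : ℝ)⁻¹ else 0 := by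
  rw [u2, lp.coeFn_sum, Finset.sum_apply]
  simp only [lp.single_apply, Finset.sum_pi_single, Finset.mem_range]

/-- the element of `E` -/
noncomputable def u (n : ℕ) : E := ⟨WithLp.toLp 2 (u1 n, u2 n), by
  intro i
  change (u1 n : ∀ _ : ℕ, ℝ) i = (u2 n : ∀ _ : ℕ, ℝ) i
  rw [u1_apply, u2_apply]⟩

theorem f_u (n : ℕ) (hn : n ≠ 0) : f (u n) = 1 := by
  change ∑' i, (u1 n : ∀ _ : ℕ, ℝ) i = 1
  rw [tsum_eq_sum (s := Finset.range n)]
  · have : ∀ i ∈ Finset.range n, (u1 n : ∀ _ : ℕ, ℝ) i = (n : ℝ)⁻¹ := by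
      intro i hi
      rw [u1_apply, if_pos (Finset.mem_range.1 hi)]
    rw [Finset.sum_congr rfl this]
    simp only [Finset.sum_const, Finset.card_range, nsmul_eq_mul]
    field_simp
  · intro i hi
    rw [u1_apply, if_neg (by simpa using hi)]

theorem norm_u1 (n : ℕ) (hn : n ≠ 0) : ‖u1 n‖ = 1 := by
  have := lp.norm_sum_single (E := fun _ : ℕ => ℝ) (p := 1) (by norm_num) (fun _ => (n : ℝ)⁻¹) (Finset.range n)
  simp only [ENNReal.toReal_one, Real.rpow_one] at this
  rw [u1, this]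
  simp only [norm_inv, RCLike.norm_natCast, Finset.sum_const, Finset.card_range, nsmul_eq_mul]
  field_simp

theorem norm_u2 (n : ℕ) (hn : n ≠ 0) : ‖u2 n‖ ^ 2 = (n : ℝ)⁻¹ := by
  have := lp.norm_sum_single (E := fun _ : ℕ => ℝ) (p := 2) (by norm_num) (fun _ => (n : ℝ)⁻¹) (Finset.range n)
  simp only [ENNReal.toReal_ofNat, Real.rpow_two] at this
  rw [u2, this]
  simp only [norm_inv, RCLike.norm_natCast, Finset.sum_const, Finset.card_range, nsmul_eq_mul]
  field_simp

theorem norm_u (n : ℕ) (hn : n ≠ 0) : ‖u n‖ ^ 2 = 1 + (n : ℝ)⁻¹ := by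
  rw [norm_sq]
  change ‖u1 n‖ ^ 2 + ‖u2 n‖ ^ 2 = _
  rw [norm_u1 n hn, norm_u2 n hn]
  norm_num

theorem exists_u (δ : ℝ) (hδ : 0 < δ) : ∃ v : E, f v = 1 ∧ ‖v‖ < 1 + δ := by
  obtain ⟨n, hn⟩ := exists_nat_one_div_lt (show (0 : ℝ) < 2 * δ by positivity)
  refine ⟨u (n + 1), f_u _ (by omega), ?_⟩
  have h := norm_u (n + 1) (by omega)
  refine lt_of_pow_lt_pow_left₀ 2 (by positivity) ?_
  rw [h]
  push_cast
  rw [one_div] at hn
  nlinarith

/-- the hyperplane -/
noncomputable def G : Submodule ℝ E := LinearMap.ker f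

theorem G_closed : IsClosed (G : Set E) := by
  have : (G : Set E) = f ⁻¹' {0} := by
    ext v
    simp [G]
  rw [this]
  exact IsClosed.preimage f_cont isClosed_singleton

theorem no_nearest (x : E) (hx : x ∉ G) (y : E) (hy : y ∈ G) :
    dist x y ≠ Metric.infDist x (G : Set E) := by
  have hfx : f x ≠ 0 := fun h => hx (by simpa [G] using h)
  have hfy : f y = 0 := by simpa [G] using hy
  have h1 : |f x| < dist x y := by
    rw [dist_eq_norm]
    have := f_lt (x - y) (by
      intro h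
      rw [sub_eq_zero] at h
      rw [h] at hx
      exact hx hy)
    rwa [map_sub, hfy, sub_zero] at this
  have h2 : Metric.infDist x (G : Set E) ≤ |f x| := by
    refine le_of_forall_pos_le_add fun ε hε => ?_
    have hpos : 0 < |f x| := abs_pos.2 hfx
    obtain ⟨v, hv1, hv2⟩ := exists_u (ε / |f x|) (by positivity)
    have hmem : x - f x • v ∈ (G : Set E) := by
      simp [G, hv1]
    refine (Metric.infDist_le_dist_of_mem hmem).trans ?_
    rw [dist_eq_norm, sub_sub_cancel, norm_smul, Real.norm_eq_abs]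
    have : |f x| * ‖v‖ ≤ |f x| * (1 + ε / |f x|) := mul_le_mul_of_nonneg_left hv2.le hpos.le
    have h3 : |f x| * (1 + ε / |f x|) = |f x| + ε := by field_simp
    linarith
  exact (lt_of_le_of_lt h2 h1).ne'

theorem G_nowhereDense : IsNowhereDense (G : Set E) := by
  rw [G_closed.isNowhereDense_iff]
  by_contra h
  have hne : (interior (G : Set E)).Nonempty := Set.nonempty_iff_ne_empty.2 h
  have htop := Submodule.eq_top_of_nonempty_interior' G hne
  obtain ⟨v, hv, -⟩ := exists_u 1 one_pos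
  have : v ∈ G := by rw [htop]; trivial
  have h0 : f v = 0 := by simpa [G] using this
  rw [hv] at h0
  exact one_ne_zero h0

theorem meagre : IsMeagre {x : E | ∃! y : E, y ∈ (G : Set E) ∧ dist x y = Metric.infDist x (G : Set E)} := by
  refine IsMeagre.mono ?_ G_nowhereDense.isMeagre
  rintro x ⟨y, ⟨hy, hxy⟩, -⟩
  by_contra hx
  exact no_nearest x hx y hy hxy

end Pool.Agent.Q24.Luc
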